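import Mathlib

/-!
# Totally real fields of odd degree, and their extensions by the square root of a positive number
-/

set_option autoImplicit false

open NumberField NumberField.InfinitePlace

namespace Pool.Agent.V11291.HM

/-- a Galois extension of odd degree is totally real -/
theorem tr_odd {K : Type} [Field K] [NumberField K] [IsGalois ℚ K]
    (h : Odd (Module.finrank ℚ K)) : IsTotallyReal K := by
  refine ⟨fun w => ?_⟩
  by_contra hw
  have h1 : ¬ IsUnramified ℚ w := by
    rw [isUnramified_iff]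
    push Not
    refine ⟨hw, ?_⟩
    rw [not_isComplex_iff_isReal]
    exact IsTotallyReal.isReal _
  have h2 := even_finrank_of_not_isUnramified h1
  exact (Nat.not_even_iff_odd.2 h) h2

lemma gal_cyc (n : ℕ) [NeZero n] (M : Type) [Field M] [NumberField M]
    [IsCyclotomicExtension {n} ℚ M] (K : IntermediateField ℚ M) : IsGalois ℚ K := by
  have h1 : IsGalois ℚ M := IsCyclotomicExtension.isGalois {n} ℚ M
  have h2 : IsMulCommutative (Gal(M/ℚ)) := IsCyclotomicExtension.isMulCommutative {n} ℚ M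
  have h3 : IsAbelianGalois ℚ M := { h1, h2 with }
  have h4 := IsAbelianGalois.tower_bot ℚ K M
  convert h4.toIsGalois

/-- the layers are totally real -/
theorem tr_layer (n : ℕ) [NeZero n] (M : Type) [Field M] [NumberField M]
    [IsCyclotomicExtension {n} ℚ M] (K : IntermediateField ℚ M)
    (h : Odd (Module.finrank ℚ K)) : IsTotallyReal K := by
  have := gal_cyc n M K
  exact tr_odd h

lemma real_of_sq {D : ℤ} (hD : 0 < D) {x : ℂ} (hx : x ^ 2 = (D : ℂ)) : (starRingEnd ℂ) x = x := by
  rw [Complex.conj_eq_iff_im]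
  have h1 := congrArg Complex.re hx
  have h2 := congrArg Complex.im hx
  rw [pow_two, Complex.mul_re, Complex.intCast_re] at h1
  rw [pow_two, Complex.mul_im, Complex.intCast_im] at h2
  have h3 : x.re * x.im = 0 := by linarith
  rcases mul_eq_zero.1 h3 with h | h
  · rw [h, zero_mul, zero_sub] at h1
    have h4 : (0 : ℝ) < D := by exact_mod_cast hD
    nlinarith [mul_self_nonneg x.im]
  · exact h

theorem quad_real {D : ℤ} (hD : 0 < D) :
    IsTotallyReal (IntermediateField.adjoin ℚ {z : ℂ | z ^ 2 = (D : ℂ)}) := by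
  refine ⟨fun w => ?_⟩
  rw [← mk_embedding w, isReal_mk_iff, ComplexEmbedding.isReal_iff]
  have key : ∀ φ ψ : IntermediateField.adjoin ℚ {z : ℂ | z ^ 2 = (D : ℂ)} →ₐ[ℚ] ℂ,
      (∀ (z : ℂ) (hz : z ∈ {z : ℂ | z ^ 2 = (D : ℂ)}),
        φ ⟨z, IntermediateField.subset_adjoin ℚ _ hz⟩ =
          ψ ⟨z, IntermediateField.subset_adjoin ℚ _ hz⟩) → φ = ψ := by
    intro φ ψ h
    refine IntermediateField.algHom_ext_of_eq_adjoin _ rfl ?_
    exact h
  have h := key (RingHom.toRatAlgHom (ComplexEmbedding.conjugate w.embedding))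
    (RingHom.toRatAlgHom w.embedding) fun z hz => by
      show (starRingEnd ℂ) (w.embedding _) = w.embedding _
      refine real_of_sq hD ?_
      rw [← map_pow]
      have e : (⟨z, IntermediateField.subset_adjoin ℚ _ hz⟩ :
          IntermediateField.adjoin ℚ {z : ℂ | z ^ 2 = (D : ℂ)}) ^ 2 = ((D : ℤ) : _) := by
        apply Subtype.ext
        have hz' : z ^ 2 = (D : ℂ) := hz
        rw [SubmonoidClass.coe_pow]
        simpa using hz'
      rw [e, map_intCast]
  ext x
  exact congrArg (fun f : IntermediateField.adjoin ℚ {z : ℂ | z ^ 2 = (D : ℂ)} →ₐ[ℚ] ℂ => f x) h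

/-- the compositum of totally real fields -/
theorem tr_sup' (A K : IntermediateField ℚ ℂ) (hA : IsTotallyReal A) (hK : IsTotallyReal K) :
    IsTotallyReal (A ⊔ K : IntermediateField ℚ ℂ) := by
  refine ⟨fun w => ?_⟩
  rw [← mk_embedding w, isReal_mk_iff, ComplexEmbedding.isReal_iff]
  have hle : ∀ (B : IntermediateField ℚ ℂ) (hB : B ≤ A ⊔ K), IsTotallyReal B →
      ∀ (x : ℂ) (hx : x ∈ B), (starRingEnd ℂ) (w.embedding ⟨x, hB hx⟩) = w.embedding ⟨x, hB hx⟩ := by
    intro B hB hr x hx
    have h1 := IsTotallyReal.complexEmbedding_isReal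
      (w.embedding.comp (IntermediateField.inclusion hB).toRingHom)
    have h2 := congrArg (fun f : B →+* ℂ => f ⟨x, hx⟩) (ComplexEmbedding.isReal_iff.1 h1)
    exact h2
  have hd : A ⊔ K = IntermediateField.adjoin ℚ ((A : Set ℂ) ∪ (K : Set ℂ)) := rfl
  have h : RingHom.toRatAlgHom (ComplexEmbedding.conjugate w.embedding) =
      RingHom.toRatAlgHom w.embedding := by
    refine IntermediateField.algHom_ext_of_eq_adjoin _ hd ?_
    rintro x (hx | hx)
    · exact hle A le_sup_left hA x hx
    · exact hle K le_sup_right hK x hx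
  ext x
  exact congrArg (fun f : (A ⊔ K : IntermediateField ℚ ℂ) →ₐ[ℚ] ℂ => f x) h

/-- `K(√D)` is totally real -/
theorem tr_sup {D : ℤ} (hD : 0 < D) (K : IntermediateField ℚ ℂ) (hK : IsTotallyReal K) :
    IsTotallyReal (IntermediateField.adjoin ℚ {z : ℂ | z ^ 2 = (D : ℂ)} ⊔ K :
      IntermediateField ℚ ℂ) :=
  tr_sup' _ K (quad_real hD) hK

end Pool.Agent.V11291.HM
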